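import Pool.Agent.MP_ee8c61_ag.M3KV.Spec

/-!
Restriction to the divisor is onto in large degree.
-/

namespace Pool.Agent.MP_ee8c61_ag.M3KV

open H59 M3 M3E Finset

namespace RL3

theorem small {J : Type} (s : Finset J) (φ : J → ℚ) (h : ∀ j ∈ s, 0 < φ j) :
    ∃ ε : ℚ, 0 < ε ∧ ∀ j ∈ s, ε ≤ φ j := by
  rcases s.eq_empty_or_nonempty with rfl | hs
  · exact ⟨1, one_pos, fun j hj => absurd hj (notMem_empty j)⟩
  · obtain ⟨j, hj, h1⟩ := exists_min_image s φ hs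
    exact ⟨φ j, h j hj, h1⟩

end RL3

theorem rowL3 : OfL3 := by
  intro hB hL N f M Q o hM hQ
  have B := hB N f M hM
  obtain ⟨ε, hε, h1⟩ := RL3.small (univ.erase o) (Q.dl o) fun j hj => hQ.pos j (mem_erase.1 hj).1
  obtain ⟨Ξ, h2, h3, n0, h4⟩ := hQ.amp (-(M.kk + M.e o)) ε hε
  refine ⟨n0, fun n hn s hs => ?_⟩
  have hA := h4 n hn
  have e0 : M.q (-(M.kk + M.e o)) = -M.q (M.kk + M.e o) := funext fun j => Int.cast_neg _
  rw [e0, map_neg] at hA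
  generalize hp : Q.P (M.q (M.kk + M.e o)) = p at hA
  have e1 : ∀ j, (M.kk + M.e o + M.up (n • M.q Q.L + -p - Ξ)) j =
      M.k j + M.e o j + ⌈(n : ℚ) * Q.L j + -p j - Ξ j⌉ := fun j => by
    rw [← nsmul_eq_mul]
    rfl
  have e2 : ∀ j, (n • Q.L) j = n * Q.L j := fun j => nsmul_eq_mul _ _
  have a1 : ∀ j ∈ Q.Al, (M.kk + M.e o + M.up (n • M.q Q.L + -p - Ξ)) j = (n • Q.L) j := by
    intro j hj
    have h5 : p j = ((M.k j + M.e o j : ℤ) : ℚ) := by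
      rw [← hp, hQ.id _ j hj]
      rfl
    have h6 : (n : ℚ) * Q.L j + -p j - Ξ j = ((n * Q.L j - (M.k j + M.e o j) : ℤ) : ℚ) := by
      rw [h5, h2 j hj]
      push_cast
      ring
    rw [e1, e2, h6, Int.ceil_intCast]
    ring
  have a2 : ∀ j, (n • Q.L) j ≤ (M.kk + M.e o + M.up (n • M.q Q.L + -p - Ξ)) j := by
    intro j
    by_cases hj : j = o
    · exact (a1 j (hj ▸ hQ.al)).ge
    · have h5 : ε ≤ M.k j + 1 - p j := by
        rw [← hp]
        exact h1 j (mem_erase.2 ⟨hj, mem_univ j⟩)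
      have h6 : M.e o j = 0 := Pi.single_eq_of_ne hj _
      have h7 : (n : ℤ) * Q.L j - M.k j ≤ ⌈(n : ℚ) * Q.L j + -p j - Ξ j⌉ := by
        rw [Int.le_ceil_iff]
        push_cast
        linarith [h3 j]
      rw [e1, e2, h6]
      linarith
  obtain ⟨g, hg, h5⟩ := hL N f M hM o _ hA s fun V hV hV' =>
    B.oc_mono V _ _ s (fun j _ => a2 j) (hs V hV hV')
  have h6 := hQ.exc _ g hg 1 (n • Q.L) one_pos (by
    have e3 : M.q (n • Q.L) = n • M.q Q.L := funext fun j => by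
      show (((n • Q.L) j : ℤ) : ℚ) = n • ((Q.L j : ℤ) : ℚ)
      rw [e2, nsmul_eq_mul, Int.cast_mul, Int.cast_natCast]
    rw [one_smul, hQ.pr (M.q (M.kk + M.e o + M.up (n • M.q Q.L + -p - Ξ))) (M.q (n • Q.L))
      fun j hj => congrArg Int.cast (a1 j hj), e3, map_nsmul, hQ.fix])
  rw [pow_one] at h6
  rw [a1 o hQ.al] at h5
  exact ⟨g, h6, h5⟩

end Pool.Agent.MP_ee8c61_ag.M3KV
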