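import Pool.Agent.MP_ee8c61_ag.M3KV.Spec

/-!
Row Sc: the calculus of local sections.
-/

namespace Pool.Agent.MP_ee8c61_ag.M3KV

open H59 M3 M3E M3RESID Finset

namespace RSc

variable {N : ℕ} {f : Po N} {M : Mod N} {Q : PD M} {V : Vl N}

/-- The property `Φ` holds near the image of the centre of `V`. -/
def Nh (Q : PD M) (V : Vl N) (Φ : Vl N → Prop) : Prop :=
  ∃ (n : ℕ) (t : KK N), t ∈ M.H (n • Q.L) ∧ M.Gen V (n • Q.L) t ∧
    ∀ V', Ov V' → M.Gen V' (n • Q.L) t → Φ V'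

theorem Nh.mono {Φ Ψ : Vl N → Prop} (h : Nh Q V Φ) (h' : ∀ V', Ov V' → Φ V' → Ψ V') :
    Nh Q V Ψ := by
  obtain ⟨n, t, a, b, c⟩ := h
  exact ⟨n, t, a, b, fun V' o g => h' V' o (c V' o g)⟩

theorem Nh.and (B : Bas f M) {Φ Ψ : Vl N → Prop} (h : Nh Q V Φ) (h' : Nh Q V Ψ) :
    Nh Q V fun V' => Φ V' ∧ Ψ V' := by
  obtain ⟨n, t, a, b, c⟩ := h
  obtain ⟨n', t', a', b', c'⟩ := h'
  refine ⟨n + n', t * t', ?_⟩
  rw [add_nsmul]
  refine ⟨fun V' o => B.oc_mul _ _ _ _ _ (a V' o) (a' V' o), B.gen_mul _ _ _ _ _ b b',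
    fun V' o g => ⟨c V' o (B.gen_of_mul _ _ _ _ _ (a V' o) (a' V' o) g),
      c' V' o (B.gen_of_mul _ _ _ _ _ (a' V' o) (a V' o) ?_)⟩⟩
  rwa [add_comm, mul_comm]

theorem gen_zero (B : Bas f M) {g : KK N} (h : Un V g) : M.Gen V 0 g := fun b _ => by
  rwa [B.mon_zero, mul_one]

theorem oc_zero (B : Bas f M) {g : KK N} (h : g ∈ V) : M.Oc V 0 g := fun b _ => by
  rwa [B.mon_zero, mul_one]

theorem Nh.top (B : Bas f M) {Φ : Vl N → Prop} (h : ∀ V', Ov V' → Φ V') : Nh Q V Φ := by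
  refine ⟨0, 1, ?_⟩
  rw [zero_nsmul]
  exact ⟨fun V' _ => oc_zero B (one_mem _), gen_zero B un_one, fun V' o _ => h V' o⟩

theorem Nh.self {n : ℕ} {t : KK N} (a : t ∈ M.H (n • Q.L)) (b : M.Gen V (n • Q.L) t) :
    Nh Q V fun V' => M.Gen V' (n • Q.L) t := ⟨n, t, a, b, fun _ _ g => g⟩

theorem Nh.all (B : Bas f M) {ι : Type} (s : Finset ι) {Φ : ι → Vl N → Prop}
    (h : ∀ i, Nh Q V (Φ i)) : Nh Q V fun V' => ∀ i ∈ s, Φ i V' := by
  classical
  induction s using Finset.induction_on with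
  | empty => exact Nh.top B fun _ _ i hi => absurd hi (notMem_empty i)
  | insert i s _ ih =>
    exact ((h i).and B ih).mono fun V' _ h' => forall_mem_insert _ _ _ |>.2 h'

theorem oc_cancel (B : Bas f M) {c d : M.J → ℤ} {s g : KK N} (h : M.Gen V d s)
    (h' : M.Oc V (c + d) (s * g)) : M.Oc V c g := fun b hb => by
  have h1 := h' b hb
  rw [B.mon_add, show s * g * (M.mon b c * M.mon b d) = g * M.mon b c * (s * M.mon b d) by ring]
    at h1
  exact (h b hb).mem_iff.1 h1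

theorem gen_cancel (B : Bas f M) {c d : M.J → ℤ} {s g : KK N} (h : M.Gen V d s)
    (h' : M.Gen V (c + d) (s * g)) : M.Gen V c g := fun b hb => by
  have h1 := h' b hb
  rw [B.mon_add, show s * g * (M.mon b c * M.mon b d) = g * M.mon b c * (s * M.mon b d) by ring]
    at h1
  exact h1.cancel (h b hb)

theorem det_mem {A : Matrix (Fin N) (Fin N) (KK N)} (h : ∀ i j, A i j ∈ V) : A.det ∈ V := by
  rw [Matrix.det_apply']
  exact sum_mem fun σ _ => mul_mem (intCast_mem _ _) (prod_mem fun i _ => h _ _)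

end RSc

open RSc in
theorem rowSc : OfSc := by
  classical
  intro hB hN hD hP N f M Q o V ok q oV
  have B := hB N f M ok
  have nb := hN N f M ok
  have dr := hD N f M ok
  have pw := hP N f M ok
  have exc : ∀ c g (m : ℕ) c', 0 < m → M.q c' = m • Q.P (M.q c) → Q.SecA V c g →
      Q.Sec V c' (g ^ m) := by
    rintro c g m c' hm hc ⟨c2, h2, n, t, a, b, h⟩
    obtain ⟨k, hk⟩ := pw _ t a c2 g h
    have h3 : t ^ k * g ∈ M.H ((fun j => if j ∈ Q.Al then c j else c2 j) + k • n • Q.L) :=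
      fun V' o => B.oc_mono V' _ _ _ (fun j _ => by
        simp only [Pi.add_apply]
        split_ifs with hj
        · exact add_le_add_left (h2 j hj) _
        · exact le_rfl) (hk V' o)
    have h4 := q.exc _ _ h3 m (c' + m • k • n • Q.L) hm (by
      rw [M.q_add, M.q_add, M.q_nsmul, M.q_nsmul, M.q_nsmul, map_add, map_nsmul, map_nsmul, q.fix,
        hc, smul_add, q.pr (M.q fun j => if j ∈ Q.Al then c j else c2 j) (M.q c)
          fun j hj => by simp [hj]])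
    refine ⟨n, t, a, b, fun V' o g' => ?_⟩
    have h5 := h4 V' o
    rw [mul_pow] at h5
    exact oc_cancel B (B.gen_pow _ _ _ m (B.gen_pow _ _ _ k g')) h5
  refine ⟨?_, ?_, ?_, ?_, ?_, exc, ?_, ?_, ?_, ?_, ?_, ?_⟩
  · rintro c g h ⟨c1, a1, s1⟩ ⟨c2, a2, s2⟩
    exact ⟨fun j => max (c1 j) (c2 j), fun j hj => max_le (a1 j hj) (a2 j hj),
      (Nh.and B s1 s2).mono fun V' _ e => B.oc_add _ _ _ _
        (B.oc_mono _ _ _ _ (fun j _ => le_max_left _ _) e.1)
        (B.oc_mono _ _ _ _ (fun j _ => le_max_right _ _) e.2)⟩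
  · rintro c c' g h ⟨c1, a1, s1⟩ ⟨c2, a2, s2⟩
    exact ⟨c1 + c2, fun j hj => add_le_add (a1 j hj) (a2 j hj),
      (Nh.and B s1 s2).mono fun V' _ e => B.oc_mul _ _ _ _ _ e.1 e.2⟩
  · exact fun p => ⟨0, fun _ _ => le_rfl, Nh.top B fun V' o => oc_zero B (o p)⟩
  · rintro c c' g h ⟨c1, a1, s1⟩
    exact ⟨c1, fun j hj => (a1 j hj).trans (h j hj), s1⟩
  · intro c n g hg t a b
    refine (Nh.self a b).mono fun V' o e => ?_
    rw [sub_eq_add_neg, div_eq_mul_inv]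
    exact B.oc_mul _ _ _ _ _ (hg V' o) (B.gen_oc _ _ _ (B.gen_inv _ _ _ e))
  · intro g h
    have := exc 0 g 1 0 one_pos (by rw [M.q_zero, map_zero, smul_zero]) h
    rwa [pow_one] at this
  · rintro c g ⟨n, t, a, b, h⟩
    exact h V oV b
  · rintro g ⟨n, t, a, b, h⟩ u
    obtain ⟨k, hk⟩ := pw _ t a 0 g h
    have h1 := B.gen_mul _ _ _ _ _ (B.gen_pow _ _ _ k b) (gen_zero B u)
    rw [zero_add, smul_smul] at hk
    rw [add_zero, smul_smul] at h1
    refine ((Nh.self a b).and B (Nh.self hk h1)).mono fun V' _ e => ?_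
    have h2 := e.2
    rw [← smul_smul, ← zero_add (k • n • Q.L)] at h2
    have h3 := B.gen_inv _ _ _ (gen_cancel B (B.gen_pow _ _ _ k e.1) h2)
    rw [neg_zero] at h3
    exact B.gen_oc _ _ _ h3
  · rintro j g ⟨n, t, a, b, h⟩ hg
    obtain ⟨k, hk⟩ := pw _ t a 0 g h
    rw [zero_add] at hk
    have h1 : t ^ k * g ∈ M.H (-M.e j + k • n • Q.L) := by
      refine (nb.H _ _).2 fun b => ?_
      have h2 := (nb.H _ _).1 hk b
      have h3 : M.mon b (-M.e j) = (M.η b j)⁻¹ := by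
        have := B.mon_e b j (-1)
        rwa [neg_one_smul, zpow_neg_one] at this
      rw [B.mon_add, h3, mul_comm (M.η b j)⁻¹, ← mul_assoc]
      by_cases h4 : (M.η b j)⁻¹ ∈ M.S.A b
      · exact mul_mem h2 h4
      · obtain ⟨d1, -, d3⟩ := ok.dv b j h4
        refine d3 _ h2 ?_
        have h5 := (B.oc_v j _ _).1 (B.oc_pow _ _ _ k (a _ (B.ov_v j)))
        have h6 := (M.v j).mem_F_self (M.mon b (k • n • Q.L))
        rw [B.v_mon b j _ d1] at h6
        have h7 := (M.v j).F_mul ((M.v j).F_mul h5 hg) h6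
        rwa [add_right_comm, neg_add_cancel, zero_add] at h7
    exact ⟨n, t, a, b, fun V' o e => oc_cancel B (B.gen_pow _ _ _ k e) (h1 V' o)⟩
  · intro c γ g m c' hm hc sγ gγ sg
    have h1 : Q.P (M.q c') = M.q c' := by
      rw [q.pr (M.q c') (m • M.q c) fun j hj => by
        rw [hc, Pi.smul_apply, Pi.smul_apply, q.id _ j hj], map_nsmul, hc]
    obtain ⟨n, μ, w, hμ, ⟨T, hT, hT'⟩, hw⟩ := q.sa (-c')
    obtain ⟨σ, hσ, gσ⟩ := hT' V oV
    have h2 : w = μ • (n • Q.L - c') := M.q_inj (by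
      rw [hw, M.q_neg, map_neg, h1, M.q_nsmul, M.q_sub, M.q_nsmul, sub_eq_add_neg])
    obtain ⟨n1, t, a, b, h⟩ := exc c γ m c' hm hc sγ
    obtain ⟨k, hk⟩ := pw _ t a c' _ h
    have h3 : M.Gen V (c' + k • n1 • Q.L) (t ^ k * γ ^ m) := by
      rw [add_comm]
      exact B.gen_mul _ _ _ _ _ (B.gen_pow _ _ _ k b) gγ
    have h4 : μ • (c' + k • n1 • Q.L) + w = (μ * (k * n1 + n)) • Q.L := by
      rw [h2, ← smul_add, mul_nsmul', add_nsmul, mul_nsmul']
      congr 1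
      abel
    have s1 : Nh Q V fun V' => M.Gen V' (c' + k • n1 • Q.L) (t ^ k * γ ^ m) := by
      refine ⟨μ * (k * n1 + n), (t ^ k * γ ^ m) ^ μ * σ, ?_⟩
      rw [← h4]
      exact ⟨fun V' o => B.oc_mul _ _ _ _ _ (B.oc_pow _ _ _ μ (hk V' o)) (hT σ hσ V' o),
        B.gen_mul _ _ _ _ _ (B.gen_pow _ _ _ μ h3) gσ, fun V' o e => B.gen_root _ _ _ μ hμ
          (B.gen_of_mul _ _ _ _ _ (B.oc_pow _ _ _ μ (hk V' o)) (hT σ hσ V' o) e)⟩
    refine (((Nh.self a b).and B s1).and B (exc c g m c' hm hc sg)).mono fun V' o e => ?_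
    have h5 := (B.oc_div V' c' _ _ o (gen_cancel B (B.gen_pow _ _ _ k e.1.1) e.1.2)).1 e.2
    rw [← div_pow] at h5
    exact oc_zero B (mem_of_pow hm h5)
  · intro g hg
    obtain ⟨n, t, a, b, h⟩ := Nh.all B univ hg
    refine ⟨n, t, a, b, fun V' o e b hb => ?_⟩
    have h1 := (nb.H _ _).1 a b
    have h2 := e b hb
    have h3 : ∀ l, Lc (M.S.A b) V' (g l) := fun l => by
      obtain ⟨k, hk⟩ := nb.aw b _ h1 h2.1 (g l) fun V2 i1 i2 => by
        have := h V2 (B.ov b V2 i1) ((B.gen_iff b V2 _ _ i1).2 ⟨h2.1, i1 _ h1, i2⟩) l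
          (mem_univ l) b i1
        rwa [B.mon_zero, mul_one] at this
      exact ⟨_, pow_mem h1 k, h2.pow k, hk⟩
    have h4 : (Matrix.of fun i j => M.S.D b i (g j)).det ∈ V' :=
      det_mem fun i j => (dr.lc b V' i _ (h3 j)).mem' hb
    have h5 : (Matrix.of fun i j => M.S.D b i (g j)) =
        (Matrix.of fun l i => M.S.D b i (M.S.r l)).transpose *
          Matrix.of fun l j => M.S.R l (g j) := by
      ext i j
      rw [Matrix.mul_apply]
      exact M.S.D_R b i (g j)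
    obtain ⟨U, hU, hd⟩ := ok.det b
    rw [h5, Matrix.det_mul, Matrix.det_transpose, hd] at h4
    have h6 := mul_mem (hb _ hU.2) h4
    rwa [mul_assoc, Units.inv_mul_cancel_left, mul_comm] at h6

end Pool.Agent.MP_ee8c61_ag.M3KV
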