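import Pool.Agent.MP_ee8c61_ag.M3KV.Spec

/-!
The local ring maps onto the valuation ring of the curve.
-/

namespace Pool.Agent.MP_ee8c61_ag.M3KV

open H59 M3 M3E M3RESID Finset

namespace RSurj

variable {N : ℕ} {f : Po N} {M : Mod N}

theorem H_mul (hB : Bas f M) {c c' : M.J → ℤ} {g h : KK N} (hg : g ∈ M.H c) (hh : h ∈ M.H c') :
    g * h ∈ M.H (c + c') := fun V hV => hB.oc_mul V _ _ _ _ (hg V hV) (hh V hV)

theorem H_pow (hB : Bas f M) {c : M.J → ℤ} {g : KK N} (hg : g ∈ M.H c) (r : ℕ) :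
    g ^ r ∈ M.H (r • c) := fun V hV => hB.oc_pow V _ _ r (hg V hV)

theorem R_mul (hB : Bas f M) {o : M.J} {c c' : M.J → ℤ} {g h : KK N} (hg : g ∈ M.R o c)
    (hh : h ∈ M.R o c') : g * h ∈ M.R o (c + c') :=
  fun V hV h2 => hB.oc_mul V _ _ _ _ (hg V hV h2) (hh V hV h2)

/-- A quotient of two functions of a chart is a quotient of two global sections. -/
theorem glob (hM : M.OK f) (hB : Bas f M)
    (hP : ∀ c0, ∀ t ∈ M.H c0, ∀ c g, (∀ V, Ov V → M.Gen V c0 t → M.Oc V c g) →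
      ∃ k : ℕ, t ^ k * g ∈ M.H (c + k • c0)) {V : Vl N} (hV : Ov V) :
    ∃ b, M.In b V ∧ ∀ x ∈ M.S.A b, ∀ s ∈ M.S.A b, Un V s → ∃ c, ∃ a1 ∈ M.H c, ∃ a2 ∈ M.H c,
      M.Gen V c a2 ∧ s * a1 = x * a2 := by
  obtain ⟨w, κ, _, b, t, ρ, hA⟩ := hM.amp
  obtain ⟨a, ha⟩ := hA.cov V hV
  have hin := ((hA.gen a V hV).1 ha).1
  refine ⟨b a, hin, fun x hx s hs us => ?_⟩
  have key : ∀ g ∈ M.S.A (b a), ∃ k : ℕ, ρ a ^ k * g ∈ M.H (k • w) := fun g hg => by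
    obtain ⟨k, hk⟩ := hP w _ (hA.sec a) 0 g fun V' h1 h2 => by
      have h3 := ((hA.gen a V' h1).1 h2).1
      rw [hB.oc_iff _ _ _ _ h3, hB.mon_zero, mul_one]
      exact h3 g hg
    exact ⟨k, by rwa [zero_add] at hk⟩
  obtain ⟨k1, h1⟩ := key x hx
  obtain ⟨k2, h2⟩ := key s hs
  refine ⟨_, _, H_mul hB h1 (H_pow hB (hA.sec a) k2), _, H_mul hB (H_pow hB (hA.sec a) k1) h2,
    hB.gen_mul _ _ _ _ _ (hB.gen_pow _ _ _ k1 ha) ?_, by ring⟩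
  have h0 : M.Gen V 0 s := by rwa [hB.gen_iff _ _ _ _ hin, hB.mon_zero, mul_one]
  have := hB.gen_mul _ _ _ _ _ (hB.gen_pow _ _ _ k2 ha) h0
  rwa [add_zero] at this

end RSurj

open RSurj in
theorem rowSurj : OfSurj := by
  intro hBas _ hCv hPow hL3 hSc N f M Q o i V hM hQ hV hNN y hy
  have hB := hBas N f M hM
  have ⟨_, hOv, hle, hth, _⟩ := hV
  have sc := hSc N f M Q o V hM hQ hOv
  by_cases h1 : y ∈ (M.v o).F 1
  · exact ⟨0, sc.zero 0 (by simpa using sc.pol 0), by rwa [sub_zero]⟩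
  have hy0 : y ≠ 0 := fun h => h1 (Or.inl h)
  have hF : y ∈ (M.v o).F 0 := hle hy
  have hv : (M.v o).v y = 0 := by
    have h2 := hF.resolve_left hy0
    have h3 : ¬ 1 ≤ (M.v o).v y := fun h => h1 (Or.inr h)
    omega
  obtain ⟨b, hin, hb⟩ := glob hM hB (hPow N f M hM) hOv
  obtain ⟨e, s, hs, s', hs', us, us', hd⟩ := (hCv N f M hM).dvr o i V b hV hin y hy0 hv
  have he : 0 ≤ e := by
    have h2 := sub_mem (mul_mem us.2.1 hy) (hB.small V o hle _ hd).1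
    rw [sub_sub_cancel, mul_comm, us'.mem_iff] at h2
    exact (zpow_mem_iff (M.η_ne b i) (hin _ (hB.η_mem b i)) (hth b hin) e).1 h2
  obtain ⟨x, hxe⟩ : ∃ x, x = s' * M.η b i ^ e := ⟨_, rfl⟩
  have hx : x ∈ M.S.A b := by
    obtain ⟨e, rfl⟩ := Int.eq_ofNat_of_zero_le he
    rw [hxe, zpow_natCast]
    exact mul_mem hs' (pow_mem (hB.η_mem b i) e)
  rw [← hxe] at hd
  obtain ⟨c, a1, ha1, a2, ha2, hg, ea⟩ := hb x hx s hs us
  obtain ⟨n, s1, hs1, gs1⟩ := hNN (-c)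
  obtain ⟨T, hT1, hT2⟩ := hQ.free
  obtain ⟨t0, ht0, gt0⟩ := hT2 V hOv
  obtain ⟨n0, hn0⟩ := hL3 N f M Q o hM hQ
  have em : c + (-c + n • Q.L + n0 • Q.L) = (n + n0) • Q.L := by
    rw [add_smul]
    abel
  have hs2 := R_mul hB hs1 (hB.H_R o _ (H_pow hB (hT1 t0 ht0) n0))
  have gs2 := hB.gen_mul _ _ _ _ _ gs1 (hB.gen_pow _ _ _ n0 gt0)
  generalize s1 * t0 ^ n0 = s2 at hs2 gs2
  have r1 := R_mul hB (hB.H_R o _ ha1) hs2
  have r2 := R_mul hB (hB.H_R o _ ha2) hs2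
  have g2' := hB.gen_mul _ _ _ _ _ hg gs2
  rw [em] at r1 r2 g2'
  obtain ⟨g1, hg1, d1⟩ := hn0 (n + n0) (Nat.le_add_left _ _) _ r1
  obtain ⟨g2, hg2, d2⟩ := hn0 (n + n0) (Nat.le_add_left _ _) _ r2
  have d2' : g2 - a2 * s2 ∈ (M.v o).F (1 - ((n + n0) • Q.L) o) := by
    simpa only [neg_sub] using neg_mem d2
  have gg := hB.gen_small V o _ _ g2 hle g2' d2'
  have hq := sc.quot _ (n + n0) g1 hg1 g2 hg2 gg
  rw [sub_self] at hq
  refine ⟨_, hq, ?_⟩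
  have hinO : M.In b (M.v o).O := fun g hg => hle (hin g hg)
  obtain ⟨g0, vg⟩ := (hB.gen_v o _ g2).1 ((hB.gen_iff _ _ _ _ hinO).2
    (((hB.gen_iff _ _ _ _ hin).1 gg).mono hle))
  have r3 := hB.R_F o _ _ r2
  generalize ((n + n0) • Q.L) o = m at d1 d2' vg r3
  have hi : g2⁻¹ ∈ (M.v o).F m := Or.inr (by rw [(M.v o).inv, vg, neg_neg])
  have k1 := (M.v o).F_mul hF d2'
  have k2 := (M.v o).F_mul ((M.v o).F_mul (show s⁻¹ ∈ (M.v o).F 0 from hle us.2.2) hd) r3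
  rw [zero_add] at k1
  rw [zero_add, ← sub_eq_add_neg] at k2
  have k3 := (M.v o).F_mul (add_mem (add_mem k1 k2) d1) hi
  rw [sub_add_cancel] at k3
  have e3 : y - g1 / g2 = (y * (g2 - a2 * s2) + s⁻¹ * (s * y - x) * (a2 * s2) + (a1 * s2 - g1))
      * g2⁻¹ := by
    have s0 := us.1
    field_simp
    linear_combination (-s2) * ea
  rwa [e3]

end Pool.Agent.MP_ee8c61_ag.M3KV
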