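import Pool.Agent.MP_ee8c61_ag.M3KV.RAr
import Pool.Agent.MP_ee8c61_ag.M3KV.RFr
import Pool.Agent.MP_ee8c61_ag.M3KV.RPow
import Pool.Agent.MP_ee8c61_ag.M3KV.RL3
import Pool.Agent.MP_ee8c61_ag.M3KV.RIL
import Pool.Agent.MP_ee8c61_ag.M3KV.RSc
import Pool.Agent.MP_ee8c61_ag.M3KV.RSurj
import Pool.Agent.MP_ee8c61_ag.M3KV.RREG

/-! The block from the statements of the lifting block. -/

namespace Pool.Agent.MP_ee8c61_ag.M3KV

open M3E

theorem block_of (hB : SBas) (hN : SNb) (hD : SDer) (hC : SCv) (hL : SL0) :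
    SAR ∧ SDich ∧ SREG ∧ SPow ∧ SL3 ∧ SSc ∧ SIL := by
  have h1 := rowPow hB hN
  have h2 := rowIL hB hN hC hL
  have h3 := rowAR rowAr h2
  have h4 := rowL3 hB hL
  have h5 := rowSc hB hN hD h1
  exact ⟨h3, dich_of h3, rowREG hB hD hC h3 h2 h5 (rowSurj hB hN hC h1 h4 h5) rowFr, h1, h4, h5, h2⟩

end Pool.Agent.MP_ee8c61_ag.M3KV
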