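import Pool.Agent.MP_ee8c61_ag.M3.FKit2
import Pool.Agent.MP_ee8c61_ag.M3.RIT
import Pool.Agent.MP_ee8c61_ag.M3RESID.U3
import Pool.Agent.MP_ee8c61_ag.M3K.Out

/-! The curves on the surface that are not contracted. -/

namespace Pool.Agent.MP_ee8c61_ag.M3KV

open H59 M3 M3E M3K M3RESID Finset

variable {f : Po 3} {M : M3.Mod 3} {C : Ch f M} {o : M.J} {la : ℚ}

/-- An interior divisor whose system dominates the given one. -/
theorem pz_of (hE : EOut) (hK : KOut) (hM : M.OK f) {Y : C.AS o} (hY : Y.OK la) {V : Vl 3}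
    (hV : Ov V) (h : Nn C.W V Y.c1) : ∃ c L, ∃ n : ℕ, Pz C c L ∧ Nn C.W V (n • L) := by
  have K := hK.ka 3 f M C hM
  have B := hE.bas 3 f C.W C.ok
  obtain ⟨δ, -, h1⟩ := hY.inn 0
  rw [smul_zero, add_zero] at h1
  obtain ⟨m, c, L, hm, h2, h3⟩ := K.mob _ h1
  have hm' : (0 : ℚ) < m := Nat.cast_pos.2 hm
  obtain ⟨κ, hκ⟩ : ∃ κ : ℚ, κ = la + Y.t1 * (C.h o / M.a o) := ⟨_, rfl⟩
  have h4 : C.pt la o Y.t1 = M.nu + Y.t1 • C.h - κ • M.q M.aa := funext fun j => by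
    simp only [Ch.pt, Ch.hp, Mod.ex, Mod.nu, Mod.aa, hκ, Pi.add_apply, Pi.sub_apply, Pi.smul_apply,
      Mod.q_apply, smul_eq_mul, Int.cast_natCast]
    ring
  refine ⟨c, L, κ.den * Y.m, ⟨h3, fun u => ?_⟩, ?_⟩
  · obtain ⟨δ, h5, h6⟩ := hY.inn u
    refine ⟨m * δ, mul_pos hm' h5, ?_⟩
    have := C.smul _ h6 m hm'
    rwa [smul_add, smul_smul, Nat.cast_smul_eq_nsmul, ← h2] at this
  obtain ⟨r, hr⟩ : ∃ r, κ.den * m = r + 1 :=
    Nat.exists_eq_succ_of_ne_zero (mul_pos κ.pos hm).ne'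
  have h5 := nn_succ hE hK.ng0 C.ok hV (B.free_add _ _ (B.free_nsmul _ r ⟨_, hY.T1⟩)
    (B.free_aa (Y.m * m * κ.num))) h
  have h6 : (κ.den * Y.m) • L = Y.c1 + (r • Y.c1 + (Y.m * m * κ.num : ℤ) • C.W.aa) := by
    refine C.W.q_inj ?_
    rw [← add_assoc, ← succ_nsmul', ← hr, C.W.q_add, C.W.q_nsmul, C.W.q_nsmul, C.W.q_zsmul,
      h3.eq, h2, hY.c1, h4, map_sub, map_smul _ κ, K.aa, map_nsmul]
    funext i
    simp only [Pi.add_apply, Pi.sub_apply, Pi.smul_apply, smul_eq_mul]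
    simp only [nsmul_eq_mul]
    push_cast
    rw [← Rat.mul_den_eq_num κ]
    ring
  rwa [h6]

theorem ikvl_of (hE : EOut) (hK : KOut) : IKvl := by
  intro f la b β Q M C o X Y h hX hY Γ hΓ hn
  classical
  have K := hK.ka 3 f M C h.ok
  have B := hE.bas 3 f C.W C.ok
  have hC := hE.cv 3 f C.W C.ok
  have hP : (M.v o).pl.o = C.W.v (C.D.e o) := (C.D.v o).symm
  have hL : Lv C.W (C.D.e o) (M.v o).pl Γ := lv_of C.ok B.toBas1 hP hΓ.bas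
  have h0 : C.W.ex la (C.D.e o) = 0 := by
    rw [RIT.ex_W C K, Pi.add_apply, ((hK.kb 3 f M C h.ok).alive o).1 h.alive, h.alive, h.zero,
      add_zero]
  have hc : Y.c1 (C.D.e o) = 0 := by
    have a : (M.a o : ℚ) ≠ 0 := Nat.cast_ne_zero.2 (h.ok.pos o).ne'
    have q := congrFun hY.c1 (C.D.e o)
    rw [Mod.q_apply, Pi.smul_apply, h.alive] at q
    simpa [Ch.pt, Ch.hp, Mod.aa, h.zero, div_mul_cancel₀ _ a] using q
  obtain ⟨p, hp⟩ := hΓ.sur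
  have hN : Nn C.W (lift (M.v o).pl Γ) Y.c1 := by
    by_contra e
    refine hn ⟨fun l q => e ?_, fun s hs s' hs' q => e (hL.nn_of hY.T1 hc hs hs' q)⟩
    obtain ⟨g, g1, g2⟩ := hY.T1.2 _ hL.ov
    obtain ⟨a, ha⟩ := hL.cov
    refine ⟨g, hY.T1.1 g g1, xx 3 l * g, fun V hV a ha => ?_, g2, ?_⟩
    · rw [mul_assoc]
      exact mul_mem (hV _) (hY.T1.1 g g1 V hV a ha)
    · rw [mul_div_cancel_right₀ _ (left_ne_zero_of_mul (g2 a ha).1)]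
      exact (hL.nc_x l).1 q
  obtain ⟨s, s1, s', s2, s3, s4⟩ := id hN
  rcases hL.dich hK.up C.ok (fun a ha => (hK.ng0 3 f C.W C.ok).lc _ _ a s s1 s' s2 ha s3) s4 with
    ⟨i, hi⟩ | hi
  · have hβ : ∀ j : C.Nb o, (C.sd la b o X Y).β j Γ = C.P (M.q (M.e j.1)) i := fun j =>
      hL.sum_cv hC ⟨p, hp⟩ hi _
    have hx : (C.sd la b o X Y).ex Γ = dl C i + (C.sd la b o X Y).α Γ := by
      refine (RIT.eps_eq ⟨p, hp⟩ (exp_isCv C.ok hP h0 hX.rd hp hi)).trans ?_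
      rw [RIT.ex_W C K, Pi.add_apply, RIT.P_sum C K h.zero]
      exact congrArg _ (sum_congr rfl fun j _ => by rw [hβ]; rfl)
    obtain ⟨c, L, n, h1, h2⟩ := pz_of hE hK h.ok hY hL.ov hN
    rcases hK.kvl f M C h.ok o i _ c L n h.alive h1 hi h2 with
      ⟨h3, j, h4, h5, h6⟩ | ⟨e, h3, h4, h5, h6⟩
    · refine Or.inl ⟨⟨j, h5.1, h4⟩, by rw [hx, h3, zero_add], by rw [hβ, h6 j h5.1, if_pos rfl],
        fun k hk => ?_⟩
      rw [hβ, h6 _ k.2.1, if_neg fun q => hk (Subtype.ext q)]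
    have h7 : ∀ j, (C.sd la b o X Y).β j Γ = 0 := fun j => by rw [hβ, h5 _ j.2.1]
    rw [SD.α, sum_eq_zero fun j _ => by rw [h7, mul_zero], add_zero, h4] at hx
    refine Or.inr ⟨h7, ?_⟩
    rw [hx]
    by_cases e1 : e = 1
    · obtain ⟨O, Z, h8⟩ := h6 e1
      exact Or.inr ⟨by simp [e1], (exp_good_reg C.ok hP h0 h.hyp.bs hX.rd hX.rv hp h8).2⟩
    · exact Or.inl ⟨e, by omega, rfl⟩
  · obtain ⟨h1, h2⟩ := exp_good_null C.ok (hE.nb 3 f C.W C.ok) hP h0 h.hyp.bs hX.rd hX.rv hΓ hi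
      hY.T1 hc hn
    exact Or.inr ⟨fun j => hL.sum_off hi _,
      Or.inr ⟨RIT.eps_eq ⟨p, hp⟩ (a := 1) (by simpa using h1), h2⟩⟩

end Pool.Agent.MP_ee8c61_ag.M3KV
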