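import Pool.Agent.MP_ee8c61_ag.M3KV.Spec

/-! Row Ar: the arithmetic of the coefficients. -/

namespace Pool.Agent.MP_ee8c61_ag.M3KV

theorem rowAr : SAr := by
  intro X _ φ m δ _ _ h0 ⟨x0, n0, h1⟩ h
  have key : ∀ (x : X) (n : ℤ), ∃ k : ℤ, φ x + n = k * δ := fun x n => by
    refine ⟨⌊(φ x + n) / δ⌋, ?_⟩
    generalize hk : ⌊(φ x + n) / δ⌋ = k
    have a1 : (k : ℚ) * δ ≤ φ x + n := (le_div_iff₀ h0).1 (hk ▸ Int.floor_le _)
    have a2 : φ x + n < (k + 1) * δ := (div_lt_iff₀ h0).1 (hk ▸ Int.lt_floor_add_one _)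
    refine le_antisymm (not_lt.1 fun a3 => ?_) a1
    have e : φ (k • x0 - x) = k * δ - (φ x + n) + (n - k * n0 : ℤ) := by
      rw [map_sub, map_zsmul, zsmul_eq_mul, h1]
      push_cast
      ring
    have a4 := h (k • x0 - x)
    have a5 := Int.le_ceil (φ (k • x0 - x) + δ - 1)
    generalize ⌈φ (k • x0 - x) + δ - 1⌉ = c at a4 a5
    rw [e] at a4 a5
    generalize n - k * n0 = n' at a4 a5
    have a6 : c < n' := by exact_mod_cast (show (c : ℚ) < n' by linarith)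
    have a7 : (c : ℚ) + 1 ≤ n' := by exact_mod_cast a6
    linarith
  obtain ⟨k, hk⟩ := key 0 1
  rw [map_zero, zero_add, Int.cast_one] at hk
  have k0 : (0 : ℚ) < k := (mul_pos_iff_of_pos_right h0).1 (hk ▸ one_pos)
  obtain ⟨e, rfl⟩ := Int.eq_ofNat_of_zero_le (show 0 ≤ k by exact_mod_cast k0.le)
  rw [Int.cast_natCast] at hk k0
  have hδ : δ = 1 / e := by rw [eq_div_iff k0.ne', mul_comm, ← hk]
  refine ⟨e, by exact_mod_cast k0, hδ, fun x => ?_⟩
  obtain ⟨n, hn⟩ := key x 0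
  exact ⟨n, by rw [Int.cast_zero, add_zero, hδ, mul_one_div] at hn; exact hn⟩

end Pool.Agent.MP_ee8c61_ag.M3KV
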